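import Mathlib

set_option autoImplicit false

namespace Pool.Agent.Results.MP_6a54e9_co.DisjointSimplices

open Finset

/-- `S` is (the vertex set of) a unit regular `k`-simplex in `R^d`: it has `k + 1` points and any
two distinct points of `S` are at distance `1`. -/
def IsUnitRegularSimplex {d : ℕ} (k : ℕ) (S : Finset (EuclideanSpace ℝ (Fin d))) : Prop :=
  S.card = k + 1 ∧ ∀ x ∈ S, ∀ y ∈ S, x ≠ y → dist x y = 1

/-- The space `R^(4n)`, coordinates indexed by `Fin n × Fin 4`. -/
abbrev V (n : ℕ) : Type := EuclideanSpace ℝ (Fin n × Fin 4)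

/-- The vector with the four coordinates `u` in block `j` and zeros elsewhere. -/
noncomputable def blk {n : ℕ} (j : Fin n) (u : Fin 4 → ℝ) : V n :=
  WithLp.toLp 2 (fun p => if p.1 = j then u p.2 else 0)

lemma inner_blk {n : ℕ} (j j' : Fin n) (u v : Fin 4 → ℝ) :
    @inner ℝ (V n) _ (blk j u) (blk j' v) = if j = j' then ∑ t, u t * v t else 0 := by
  simp only [blk, PiLp.inner_apply, RCLike.inner_apply, conj_trivial]
  rw [Fintype.sum_prod_type]
  by_cases h : j = j'
  · subst h
    rw [Finset.sum_eq_single j]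
    · simp [mul_comm]
    · intro b _ hb
      simp [hb]
    · simp
  · simp only [h, if_false]
    apply Finset.sum_eq_zero
    intro x _
    apply Finset.sum_eq_zero
    intro t _
    by_cases hx : x = j
    · subst hx
      simp [h]
    · simp [hx]

/-- `√2 / 2`. -/
noncomputable def s : ℝ := Real.sqrt 2 / 2

lemma s_mul : s * s = 1 / 2 := by
  unfold s
  have := Real.mul_self_sqrt (show (0:ℝ) ≤ 2 by norm_num)
  nlinarith

lemma s_pos : 0 < s := by
  unfold s; positivity

lemma s_lt : s < 1 := by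
  nlinarith [s_mul, s_pos]

/-- the three red vectors of a block -/
noncomputable def M (i : Fin 3) : Fin 4 → ℝ :=
  ![![1/2, 1/2, 0, 0], ![0, 0, s, 0], ![0, 0, 0, s]] i

/-- the three blue vectors of a block -/
noncomputable def N (i : Fin 3) : Fin 4 → ℝ :=
  ![![0, 0, 1/2, 1/2], ![s, 0, 0, 0], ![0, s, 0, 0]] i

lemma MM (i i' : Fin 3) : ∑ t, M i t * M i' t = if i = i' then 1 / 2 else 0 := by
  have := s_mul
  fin_cases i <;> fin_cases i' <;> simp [M, Fin.sum_univ_four, this]; norm_num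

lemma NN (i i' : Fin 3) : ∑ t, N i t * N i' t = if i = i' then 1 / 2 else 0 := by
  have := s_mul
  fin_cases i <;> fin_cases i' <;> simp [N, Fin.sum_univ_four, this]; norm_num

lemma MN (i i' : Fin 3) : 0 ≤ ∑ t, M i t * N i' t ∧ ∑ t, M i t * N i' t < 1 / 2 := by
  have := s_pos
  have := s_lt
  fin_cases i <;> fin_cases i' <;> simp [M, N, Fin.sum_univ_four] <;>
    (constructor <;> linarith)

/-- red points -/
noncomputable def red {n : ℕ} (p : Fin n × Fin 3) : V n := blk p.1 (M p.2)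

/-- blue points -/
noncomputable def blue {n : ℕ} (p : Fin n × Fin 3) : V n := blk p.1 (N p.2)

lemma inner_red {n : ℕ} (p q : Fin n × Fin 3) :
    @inner ℝ (V n) _ (red p) (red q) = if p = q then 1 / 2 else 0 := by
  obtain ⟨j, i⟩ := p
  obtain ⟨j', i'⟩ := q
  simp only [red, inner_blk, MM, Prod.mk.injEq]
  by_cases h : j = j' <;> by_cases h' : i = i' <;> simp [h, h']

lemma inner_blue {n : ℕ} (p q : Fin n × Fin 3) :
    @inner ℝ (V n) _ (blue p) (blue q) = if p = q then 1 / 2 else 0 := by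
  obtain ⟨j, i⟩ := p
  obtain ⟨j', i'⟩ := q
  simp only [blue, inner_blk, NN, Prod.mk.injEq]
  by_cases h : j = j' <;> by_cases h' : i = i' <;> simp [h, h']

lemma inner_red_blue {n : ℕ} (p q : Fin n × Fin 3) :
    0 ≤ @inner ℝ (V n) _ (red p) (blue q) ∧ @inner ℝ (V n) _ (red p) (blue q) < 1 / 2 := by
  obtain ⟨j, i⟩ := p
  obtain ⟨j', i'⟩ := q
  simp only [red, blue, inner_blk]
  by_cases h : j = j'
  · simpa [h] using MN i i'
  · simp [h]

lemma dist_sq {n : ℕ} (x y : V n) (hx : @inner ℝ (V n) _ x x = 1 / 2)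
    (hy : @inner ℝ (V n) _ y y = 1 / 2) :
    dist x y ^ 2 = 1 - 2 * @inner ℝ (V n) _ x y := by
  rw [dist_eq_norm, @norm_sub_sq_real]
  rw [real_inner_self_eq_norm_sq] at hx hy
  rw [hx, hy]; ring

lemma dist_red {n : ℕ} {p q : Fin n × Fin 3} (h : p ≠ q) : dist (red p) (red q) = 1 := by
  have h1 := dist_sq (red p) (red q) (by rw [inner_red, if_pos rfl])
    (by rw [inner_red, if_pos rfl])
  rw [inner_red, if_neg h] at h1
  have h2 : dist (red p) (red q) ^ 2 = 1 ^ 2 := by rw [h1]; norm_num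
  exact (pow_left_inj₀ dist_nonneg zero_le_one two_ne_zero).1 h2

lemma dist_blue {n : ℕ} {p q : Fin n × Fin 3} (h : p ≠ q) : dist (blue p) (blue q) = 1 := by
  have h1 := dist_sq (blue p) (blue q) (by rw [inner_blue, if_pos rfl])
    (by rw [inner_blue, if_pos rfl])
  rw [inner_blue, if_neg h] at h1
  have h2 : dist (blue p) (blue q) ^ 2 = 1 ^ 2 := by rw [h1]; norm_num
  exact (pow_left_inj₀ dist_nonneg zero_le_one two_ne_zero).1 h2

lemma dist_red_blue {n : ℕ} (p q : Fin n × Fin 3) :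
    0 < dist (red p) (blue q) ∧ dist (red p) (blue q) ≤ 1 := by
  have h1 := dist_sq (red p) (blue q) (by rw [inner_red, if_pos rfl])
    (by rw [inner_blue, if_pos rfl])
  obtain ⟨h2, h3⟩ := inner_red_blue p q
  have h4 : 0 < dist (red p) (blue q) ^ 2 := by rw [h1]; linarith
  have h5 : dist (red p) (blue q) ^ 2 ≤ 1 := by rw [h1]; linarith
  constructor
  · rcases lt_or_eq_of_le (dist_nonneg (x := red p) (y := blue q)) with h | h
    · exact h
    · rw [← h] at h4; norm_num at h4
  · nlinarith [dist_nonneg (x := red p) (y := blue q)]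

lemma red_injective {n : ℕ} : Function.Injective (red (n := n)) := by
  intro p q hpq
  by_contra h
  have := dist_red h
  rw [hpq, dist_self] at this
  norm_num at this

lemma blue_injective {n : ℕ} : Function.Injective (blue (n := n)) := by
  intro p q hpq
  by_contra h
  have := dist_blue h
  rw [hpq, dist_self] at this
  norm_num at this

/-- In `R^(4n)` there are two disjoint unit regular `(3n - 1)`-simplices whose union has
diameter at most one. -/
lemma construction (n : ℕ) (hn : 1 ≤ n) :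
    ∃ S₁ S₂ : Finset (EuclideanSpace ℝ (Fin (4 * n))),
      IsUnitRegularSimplex (3 * n - 1) S₁ ∧ IsUnitRegularSimplex (3 * n - 1) S₂ ∧
      (∀ x ∈ S₁ ∪ S₂, ∀ y ∈ S₁ ∪ S₂, dist x y ≤ 1) ∧ Disjoint S₁ S₂ := by
  classical
  have hcard : Fintype.card (Fin n × Fin 4) = Fintype.card (Fin (4 * n)) := by
    simp [mul_comm]
  let e : Fin n × Fin 4 ≃ Fin (4 * n) := Fintype.equivOfCardEq hcard
  let L : V n ≃ₗᵢ[ℝ] EuclideanSpace ℝ (Fin (4 * n)) :=
    LinearIsometryEquiv.piLpCongrLeft 2 ℝ ℝ e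
  have hLd : ∀ x y, dist (L x) (L y) = dist x y := L.dist_map
  refine ⟨univ.image (fun p => L (red p)), univ.image (fun p => L (blue p)), ⟨?_, ?_⟩,
    ⟨?_, ?_⟩, ?_, ?_⟩
  · rw [card_image_of_injective univ (f := fun p => L (red p))
      (fun p q h => red_injective (L.injective h))]
    simp only [card_univ, Fintype.card_prod, Fintype.card_fin]
    omega
  · intro x hx y hy hxy
    simp only [mem_image, mem_univ, true_and] at hx hy
    obtain ⟨p, rfl⟩ := hx
    obtain ⟨q, rfl⟩ := hy
    rw [hLd]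
    exact dist_red (fun h => hxy (by rw [h]))
  · rw [card_image_of_injective univ (f := fun p => L (blue p))
      (fun p q h => blue_injective (L.injective h))]
    simp only [card_univ, Fintype.card_prod, Fintype.card_fin]
    omega
  · intro x hx y hy hxy
    simp only [mem_image, mem_univ, true_and] at hx hy
    obtain ⟨p, rfl⟩ := hx
    obtain ⟨q, rfl⟩ := hy
    rw [hLd]
    exact dist_blue (fun h => hxy (by rw [h]))
  · intro x hx y hy
    simp only [mem_union, mem_image, mem_univ, true_and] at hx hy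
    rcases hx with ⟨p, rfl⟩ | ⟨p, rfl⟩ <;> rcases hy with ⟨q, rfl⟩ | ⟨q, rfl⟩ <;> rw [hLd]
    · by_cases h : p = q
      · rw [h, dist_self]; exact zero_le_one
      · exact (dist_red h).le
    · exact (dist_red_blue p q).2
    · rw [dist_comm]; exact (dist_red_blue q p).2
    · by_cases h : p = q
      · rw [h, dist_self]; exact zero_le_one
      · exact (dist_blue h).le
  · rw [Finset.disjoint_left]
    intro x hx hy
    simp only [mem_image, mem_univ, true_and] at hx hy
    obtain ⟨p, rfl⟩ := hx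
    obtain ⟨q, hq⟩ := hy
    have h := (dist_red_blue p q).1
    rw [← L.injective hq, dist_self] at h
    exact lt_irrefl _ h

/-- The conjectured inequality `|S₁ ∩ S₂| ≥ max(0, k + 2m - 2d + 1)` fails, by arbitrarily much:
for every `N` there are `d ≥ 2`, `m ≤ k ≤ d` and unit regular simplices `S₁`, `S₂` of dimensions
`k`, `m` in `R^d` whose union has diameter `1` and with
`|S₁ ∩ S₂| + N < max(0, k + 2m - 2d + 1)`. -/
theorem result (N : ℕ) :
    ∃ (d k m : ℕ) (S₁ S₂ : Finset (EuclideanSpace ℝ (Fin d))),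
      2 ≤ d ∧ m ≤ k ∧ k ≤ d ∧
      IsUnitRegularSimplex k S₁ ∧ IsUnitRegularSimplex m S₂ ∧
      (∀ x ∈ S₁ ∪ S₂, ∀ y ∈ S₁ ∪ S₂, dist x y ≤ 1) ∧
      (((S₁ : Set (EuclideanSpace ℝ (Fin d))) ∩ S₂).ncard : ℤ) + N <
        max 0 ((k : ℤ) + 2 * m - 2 * d + 1) := by
  obtain ⟨S₁, S₂, h1, h2, h3, h4⟩ := construction (N + 3) (by omega)
  refine ⟨4 * (N + 3), 3 * (N + 3) - 1, 3 * (N + 3) - 1, S₁, S₂, by omega, le_refl _, by omega,
    h1, h2, h3, ?_⟩
  have h5 : ((S₁ : Set (EuclideanSpace ℝ (Fin (4 * (N + 3))))) ∩ S₂) = ∅ := by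
    rw [← Set.disjoint_iff_inter_eq_empty]
    exact_mod_cast h4
  rw [h5, Set.ncard_empty]
  apply lt_max_of_lt_right
  have h6 : ((3 * (N + 3) - 1 : ℕ) : ℤ) = 3 * ((N : ℤ) + 3) - 1 := by
    have : 3 * (N + 3) - 1 = 3 * N + 8 := by omega
    rw [this]; push_cast; ring
  rw [h6]
  push_cast
  linarith

end Pool.Agent.Results.MP_6a54e9_co.DisjointSimplices
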